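import Mathlib
import Pool.Agent.Lib.MP_fbbbeb_an.Pub

set_option autoImplicit false

namespace Pool.Agent.Lib.MP_fbbbeb_an.Lag

open scoped ContDiff RealInnerProductSpace Pointwise
open Pool.Agent.Lib.MP_fbbbeb_an.Pub Set MeasureTheory Metric

/-- a linear isometry restricted to the unit sphere -/
noncomputable def sphEq (O : E ≃ₗᵢ[ℝ] E) : sphere (0 : E) 1 ≃ₜ sphere (0 : E) 1 :=
  O.toHomeomorph.subtype (p := fun x => x ∈ sphere (0 : E) 1) (q := fun x => x ∈ sphere (0 : E) 1)
    fun x => by simp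

theorem sphEq_coe (O : E ≃ₗᵢ[ℝ] E) (y : sphere (0 : E) 1) : (sphEq O y : E) = O y := rfl

theorem sphEq_mp (O : E ≃ₗᵢ[ℝ] E) :
    MeasurePreserving (sphEq O) (volume : Measure E).toSphere (volume : Measure E).toSphere := by
  refine ⟨(sphEq O).continuous.measurable, ?_⟩
  ext s hs
  rw [Measure.map_apply (sphEq O).continuous.measurable hs,
    Measure.toSphere_apply' _ ((sphEq O).continuous.measurable hs), Measure.toSphere_apply' _ hs]
  congr 1
  have e : (Ioo (0 : ℝ) 1 • ((↑) '' (sphEq O ⁻¹' s) : Set E)) =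
      O ⁻¹' (Ioo (0 : ℝ) 1 • ((↑) '' s : Set E)) := by
    ext x
    simp only [Set.mem_smul, mem_preimage, mem_image]
    constructor
    · rintro ⟨r, hr, _, ⟨y, hy, rfl⟩, rfl⟩
      exact ⟨r, hr, _, ⟨_, hy, rfl⟩, by rw [sphEq_coe, map_smul]⟩
    · rintro ⟨r, hr, _, ⟨y, hy, rfl⟩, hx⟩
      refine ⟨r, hr, _, ⟨(sphEq O).symm y, by simpa using hy, rfl⟩, ?_⟩
      apply O.injective
      rw [map_smul, ← sphEq_coe, Homeomorph.apply_symm_apply, hx]
  rw [e]
  exact MeasurePreserving.measure_preimage_equiv (f := O.toHomeomorph.toMeasurableEquiv)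
    O.measurePreserving _

/-- the sphere integral is invariant under linear isometries -/
theorem sph_comp (O : E ≃ₗᵢ[ℝ] E) (f : E → ℝ) : sph (fun y => f (O y)) = sph f :=
  (sphEq_mp O).integral_comp (sphEq O).measurableEmbedding fun y => f y

theorem tr_conj (O : E ≃ₗᵢ[ℝ] E) (A B : E →L[ℝ] E) (h : ∀ k, A (O k) = O (B k)) :
    tr (A : E →ₗ[ℝ] E) = tr (B : E →ₗ[ℝ] E) := by
  have : (A : E →ₗ[ℝ] E) = O.toLinearEquiv.conj (B : E →ₗ[ℝ] E) := by
    ext1 k
    have := h (O.symm k)
    rw [O.apply_symm_apply] at this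
    simpa [LinearEquiv.conj_apply] using this
  rw [tr, tr, this, LinearMap.trace_conj']

theorem fderiv_eqv (O : E ≃ₗᵢ[ℝ] E) {v : E → E} (hv : Differentiable ℝ v)
    (h : ∀ x, v (O x) = O (v x)) (x k : E) : fderiv ℝ v (O x) (O k) = O (fderiv ℝ v x k) := by
  have h1 := (hv (O x)).hasFDerivAt.comp x O.toContinuousLinearEquiv.hasFDerivAt
  have h2 := O.toContinuousLinearEquiv.hasFDerivAt.comp x (hv x).hasFDerivAt
  have e : v ∘ O = O.toContinuousLinearEquiv ∘ v := funext h
  rw [e] at h1
  exact congrArg (fun A : E →L[ℝ] E => A k) (h1.unique h2)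

/-- a class with the three sign changes and the cyclic shift is admissible -/
theorem admissible {M : Set (E ≃ₗᵢ[ℝ] E)}
    (hf : ∀ i : Fin 3, ∃ O ∈ M, ∀ (x : E) (j : Fin 3), O x j = (if j = i then -1 else 1) * x j)
    (hc : ∃ O ∈ M, ∀ (x : E) (j : Fin 3), O x j = x (j + 1)) : Admissible M := by
  intro v hv hi r _ Q hQ
  have ha : ContDiff ℝ ∞ (adv v) := (hv.fderiv_right (m := ∞) (by simp)).clm_apply hv
  have hd : Continuous (dvg (adv v)) := by
    have : Continuous (fderiv ℝ (adv v)) := ha.continuous_fderiv (by simp)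
    exact (LinearMap.toContinuousLinearMap
      ((LinearMap.trace ℝ E) ∘ₗ ContinuousLinearMap.coeLM ℝ)).continuous.comp this
  set f : E → ℝ := fun y => dvg (adv v) (r • y) with hfd
  have hfc : Continuous f := hd.comp (by fun_prop)
  have hinv : ∀ O ∈ M, ∀ y, f (O y) = f y := by
    intro O hO y
    have h1 : ∀ x, adv v (O x) = O (adv v x) := fun x => by
      rw [adv, adv, hi x O hO, fderiv_eqv O (hv.differentiable (by simp)) fun x => hi x O hO]
    simp only [hfd, dvg, ← map_smul]
    exact tr_conj O _ _ (fderiv_eqv O (ha.differentiable (by simp)) h1 _)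
  let I : Fin 3 → Fin 3 → ℝ := fun i j => sph fun y => f y * (y i * y j)
  have hoff : ∀ i j, i ≠ j → I i j = 0 := by
    intro i j hij
    obtain ⟨O, hO, h⟩ := hf i
    have h1 := sph_comp O fun y => f y * (y i * y j)
    simp only [hinv O hO, h, if_neg hij.symm, if_true] at h1
    have h2 : (sph fun y => f y * (-1 * y i * (1 * y j))) = -I i j := by
      simp only [I, sph, ← integral_neg]
      congr 1; ext y; ring
    simp only [I] at h2 ⊢
    linarith
  have hdiag : ∀ i, I (i + 1) (i + 1) = I i i := by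
    intro i
    obtain ⟨O, hO, h⟩ := hc
    have h1 := sph_comp O fun y => f y * (y i * y i)
    simpa only [hinv O hO, h] using h1
  have d1 : I 1 1 = I 0 0 := hdiag 0
  have d2 : I 2 2 = I 1 1 := hdiag 1
  let b := (EuclideanSpace.basisFun (Fin 3) ℝ).toBasis
  let q := LinearMap.toMatrix b b Q
  have hq : ∀ y : E, ⟪y, Q y⟫ = ∑ i, ∑ j, q i j * (y i * y j) := by
    intro y
    have h1 : ∀ i, Q y i = ∑ j, q i j * y j := fun i => by
      have := congrFun (LinearMap.toMatrix_mulVec_repr b b Q y) i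
      simpa [b, q, Matrix.mulVec, dotProduct] using this.symm
    simp only [PiLp.inner_apply, h1, Finset.sum_mul, RCLike.inner_apply, conj_trivial]
    refine Finset.sum_congr rfl fun i _ => Finset.sum_congr rfl fun j _ => by ring
  have ht : q 0 0 + q 1 1 + q 2 2 = 0 := by
    have := LinearMap.trace_eq_matrix_trace ℝ b Q
    rw [tr, this] at hQ
    simpa [Matrix.trace, Fin.sum_univ_three] using hQ
  have hint : ∀ i j, Integrable (fun y : sphere (0 : E) 1 => q i j * (f y * ((y : E) i * (y : E) j)))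
      (volume : Measure E).toSphere := fun i j =>
    Continuous.integrable_of_hasCompactSupport (by fun_prop) (HasCompactSupport.of_compactSpace _)
  have : sph (fun y => f y * ⟪y, Q y⟫) = ∑ i, ∑ j, q i j * I i j := by
    simp only [I, sph, ← integral_const_mul]
    rw [← Finset.sum_congr rfl fun i _ => integral_finsetSum _ fun j _ => hint i j,
      ← integral_finsetSum _ fun i _ => integrable_finsetSum _ fun j _ => hint i j]
    congr 1; ext y
    rw [hq, Finset.mul_sum]
    refine Finset.sum_congr rfl fun i _ => ?_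
    rw [Finset.mul_sum]
    exact Finset.sum_congr rfl fun j _ => by ring
  rw [this]
  simp only [Fin.sum_univ_three]
  rw [hoff 0 1 (by decide), hoff 0 2 (by decide), hoff 1 0 (by decide), hoff 1 2 (by decide),
    hoff 2 0 (by decide), hoff 2 1 (by decide), d2, d1]
  linear_combination I 0 0 * ht

end Pool.Agent.Lib.MP_fbbbeb_an.Lag
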