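import Mathlib
import Pool.Agent.Lib.MP_fbbbeb_an.Pub

/-! Bijectivity of homogeneous flow maps (drafted by helper12, finished by helper9). -/

set_option autoImplicit false

namespace Pool.Agent.Lib.MP_fbbbeb_an.Lag

open scoped ContDiff RealInnerProductSpace Topology NNReal
open Set Filter Metric
open Pool.Agent.Lib.MP_fbbbeb_an.Pub

/-- an open, closed, locally injective map onto a connected space with one singleton fibre -/
theorem bij_of_clopen {α β : Type*} [TopologicalSpace α] [T2Space α] [TopologicalSpace β]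
    [PreconnectedSpace β] (f : α → β) (ho : IsOpenMap f) (hc : IsClosedMap f)
    (hl : ∀ x, ∃ U, IsOpen U ∧ x ∈ U ∧ InjOn f U) (y0 : β) (h0 : ∃! x, f x = y0) :
    Function.Bijective f := by
  have hS : IsClopen {y | ∃! x, f x = y} := by
    constructor
    · rw [← isOpen_compl_iff, isOpen_iff_mem_nhds]
      intro y hy
      by_cases hr : y ∈ range f
      · obtain ⟨x1, h1⟩ := hr
        have : ∃ x2, f x2 = y ∧ x2 ≠ x1 := by
          by_contra hcon
          push Not at hcon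
          exact hy ⟨x1, h1, hcon⟩
        obtain ⟨x2, h2, hne⟩ := this
        obtain ⟨U, V, hU, hV, h2U, h1V, hd⟩ := t2_separation hne
        refine mem_of_superset (((ho U hU).inter (ho V hV)).mem_nhds ⟨⟨x2, h2U, h2⟩, ⟨x1, h1V, h1⟩⟩) ?_
        rintro w ⟨⟨a, ha, rfl⟩, ⟨b, hb, hab⟩⟩ ⟨x, -, hx⟩
        have : a = b := (hx a rfl).trans (hx b hab).symm
        exact Set.disjoint_left.1 hd ha (this ▸ hb)
      · refine mem_of_superset (hc.isClosed_range.isOpen_compl.mem_nhds hr) ?_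
        rintro w hw ⟨x, hx, -⟩
        exact hw ⟨x, hx⟩
    · rw [isOpen_iff_mem_nhds]
      rintro y ⟨x, hx, hu⟩
      obtain ⟨U, hU, hxU, hi⟩ := hl x
      have h1 : y ∈ (f '' Uᶜ)ᶜ := by
        rintro ⟨a, ha, hay⟩
        exact ha (hu a hay ▸ hxU)
      refine mem_of_superset (((ho U hU).inter (hc _ hU.isClosed_compl).isOpen_compl).mem_nhds
        ⟨⟨x, hxU, hx⟩, h1⟩) ?_
      rintro w ⟨⟨a, ha, rfl⟩, hw⟩
      refine ⟨a, rfl, fun b hb => ?_⟩
      by_contra hne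
      by_cases hbU : b ∈ U
      · exact hne (hi hbU ha hb)
      · exact hw ⟨b, hbU, hb⟩
  have hall := hS.eq_univ ⟨y0, h0⟩
  rw [Function.bijective_iff_existsUnique]
  intro y
  have : y ∈ {y | ∃! x, f x = y} := hall ▸ mem_univ y
  exact this

/-- space-time domain -/
def Om (I : Set ℝ) : Set (ℝ × E) := I ×ˢ {0}ᶜ

theorem isOpen_Om {I : Set ℝ} (hI : IsOpen I) : IsOpen (Om I) := hI.prod isOpen_compl_singleton

theorem mem_Om {I : Set ℝ} {z : ℝ × E} : z ∈ Om I ↔ z.1 ∈ I ∧ z.2 ≠ 0 := Iff.rfl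

theorem isPreconnected_Om {I : Set ℝ} (hI : IsPreconnected I) : IsPreconnected (Om I) := by
  refine hI.prod (isConnected_compl_singleton_of_one_lt_rank ?_ 0).isPreconnected
  rw [← Module.finrank_eq_rank]
  simp

section Gen
variable {F : Type*} [NormedAddCommGroup F] [NormedSpace ℝ F]

/-- space derivative -/
noncomputable def Da (f : ℝ × E → F) (z : ℝ × E) : E →L[ℝ] F :=
  (fderiv ℝ f z).comp (ContinuousLinearMap.inr ℝ ℝ E)

/-- time derivative -/
noncomputable def Dt (f : ℝ × E → F) (z : ℝ × E) : F := fderiv ℝ f z (1, 0)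

theorem Da_apply (f : ℝ × E → F) (z : ℝ × E) (v : E) : Da f z v = fderiv ℝ f z (0, v) := rfl

theorem fderiv_split (f : ℝ × E → F) (z : ℝ × E) (s : ℝ) (v : E) :
    fderiv ℝ f z (s, v) = s • Dt f z + Da f z v := by
  rw [Dt, Da_apply, ← map_smul, ← map_add]; simp

theorem hasFDerivAt_Da {f : ℝ × E → F} {z : ℝ × E} (h : DifferentiableAt ℝ f z) :
    HasFDerivAt (fun a => f (z.1, a)) (Da f z) z.2 :=
  h.hasFDerivAt.comp z.2 (hasFDerivAt_prodMk_right z.1 z.2)

theorem hasDerivAt_Dt {f : ℝ × E → F} {z : ℝ × E} (h : DifferentiableAt ℝ f z) :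
    HasDerivAt (fun t => f (t, z.2)) (Dt f z) z.1 := by
  have h1 : HasDerivAt (fun t : ℝ => (t, z.2)) ((1 : ℝ), (0 : E)) z.1 :=
    (hasDerivAt_id z.1).prodMk (hasDerivAt_const _ _)
  exact HasFDerivAt.comp_hasDerivAt (f := fun t : ℝ => (t, z.2)) z.1 h.hasFDerivAt h1

/-- smooth on the domain and homogeneous of degree one in space -/
structure Hom1 (I : Set ℝ) (f : ℝ × E → F) : Prop where
  sm : ContDiffOn ℝ ∞ f (Om I)
  hom : ∀ z ∈ Om I, ∀ l : ℝ, 0 < l → f (z.1, l • z.2) = l • f z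

variable {I : Set ℝ} {f : ℝ × E → F}

theorem cda (hI : IsOpen I) (h : ContDiffOn ℝ ∞ f (Om I)) {z : ℝ × E} (hz : z ∈ Om I) :
    ContDiffAt ℝ ∞ f z := h.contDiffAt ((isOpen_Om hI).mem_nhds hz)

theorem dfa (hI : IsOpen I) (h : ContDiffOn ℝ ∞ f (Om I)) {z : ℝ × E} (hz : z ∈ Om I) :
    DifferentiableAt ℝ f z := (cda hI h hz).differentiableAt (by simp)

theorem sm_fderiv (hI : IsOpen I) (h : ContDiffOn ℝ ∞ f (Om I)) :
    ContDiffOn ℝ ∞ (fderiv ℝ f) (Om I) :=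
  h.fderiv_of_isOpen (isOpen_Om hI) (by simp)

theorem sm_pd (hI : IsOpen I) (h : ContDiffOn ℝ ∞ f (Om I)) (v : ℝ × E) :
    ContDiffOn ℝ ∞ (fun z => fderiv ℝ f z v) (Om I) :=
  (sm_fderiv hI h).clm_apply contDiffOn_const

theorem sm_Dt (hI : IsOpen I) (h : ContDiffOn ℝ ∞ f (Om I)) : ContDiffOn ℝ ∞ (Dt f) (Om I) :=
  sm_pd hI h _

theorem sm_Da (hI : IsOpen I) (h : ContDiffOn ℝ ∞ f (Om I)) : ContDiffOn ℝ ∞ (Da f) (Om I) :=
  (sm_fderiv hI h).clm_comp contDiffOn_const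

/-- Euler identity -/
theorem Hom1.euler (hI : IsOpen I) (h : Hom1 I f) {z : ℝ × E} (hz : z ∈ Om I) :
    Da f z z.2 = f z := by
  have h1 : HasDerivAt (fun l : ℝ => l • z.2) z.2 1 := by
    simpa using (hasDerivAt_id (1 : ℝ)).smul_const z.2
  have h2 : HasFDerivAt (fun a => f (z.1, a)) (Da f z) ((1 : ℝ) • z.2) := by
    rw [one_smul]; exact hasFDerivAt_Da (dfa hI h.sm hz)
  have h3 := HasFDerivAt.comp_hasDerivAt (f := fun l : ℝ => l • z.2) 1 h2 h1
  have h4 : HasDerivAt (fun l : ℝ => l • f z) (f z) 1 := by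
    simpa using (hasDerivAt_id (1 : ℝ)).smul_const (f z)
  refine h3.unique (h4.congr_of_eventuallyEq ?_)
  filter_upwards [Ioi_mem_nhds (zero_lt_one (α := ℝ))] with l hl
  exact h.hom z hz l hl

theorem Hom1.dt (hI : IsOpen I) (h : Hom1 I f) : Hom1 I (Dt f) := by
  refine ⟨sm_Dt hI h.sm, fun z hz l hl => ?_⟩
  have hz' : (z.1, l • z.2) ∈ Om I := ⟨hz.1, smul_ne_zero hl.ne' hz.2⟩
  have h1 := hasDerivAt_Dt (dfa hI h.sm hz')
  have h2 := (hasDerivAt_Dt (dfa hI h.sm hz)).const_smul l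
  refine h1.unique (h2.congr_of_eventuallyEq ?_)
  filter_upwards [hI.mem_nhds hz.1] with t ht
  exact h.hom (t, z.2) ⟨ht, hz.2⟩ l hl

theorem Hom1.da_smul (hI : IsOpen I) (h : Hom1 I f) {z : ℝ × E} (hz : z ∈ Om I) {l : ℝ}
    (hl : 0 < l) : Da f (z.1, l • z.2) = Da f z := by
  have hz' : (z.1, l • z.2) ∈ Om I := ⟨hz.1, smul_ne_zero hl.ne' hz.2⟩
  have h1 := HasFDerivAt.comp (f := fun a : E => l • a) z.2 (hasFDerivAt_Da (dfa hI h.sm hz'))
    ((hasFDerivAt_id z.2).const_smul l)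
  have h2 := (hasFDerivAt_Da (dfa hI h.sm hz)).const_smul l
  have h3 := h1.unique (h2.congr_of_eventuallyEq (by
    filter_upwards [isOpen_compl_singleton.mem_nhds hz.2] with a ha
    exact h.hom (z.1, a) ⟨hz.1, ha⟩ l hl))
  ext v
  have := congrArg (fun L => L v) h3
  simpa [hl.ne'] using this

end Gen

variable {I : Set ℝ} {X : ℝ × E → E}

/-- the space-time map of the flow -/
def Phi (X : ℝ × E → E) (z : ℝ × E) : ℝ × E := (z.1, X z)

theorem Hom1.ne_zero (hI : IsOpen I) (h : Hom1 I X)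
    (hd : ∀ z ∈ Om I, Function.Injective (Da X z)) {z : ℝ × E} (hz : z ∈ Om I) : X z ≠ 0 := by
  intro h0
  have := h.euler hI hz
  rw [h0] at this
  exact hz.2 (hd z hz (this.trans (map_zero _).symm))

theorem Hom1.maps (hI : IsOpen I) (h : Hom1 I X)
    (hd : ∀ z ∈ Om I, Function.Injective (Da X z)) : MapsTo (Phi X) (Om I) (Om I) :=
  fun _ hz => ⟨hz.1, h.ne_zero hI hd hz⟩

theorem Hom1.equiv (hI : IsOpen I) (h : Hom1 I X)
    (hd : ∀ z ∈ Om I, Function.Injective (Da X z)) {z : ℝ × E} (hz : z ∈ Om I) :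
    ∃ L : (ℝ × E) ≃L[ℝ] (ℝ × E), HasFDerivAt (Phi X) (L : (ℝ × E) →L[ℝ] (ℝ × E)) z := by
  have h1 : HasFDerivAt (Phi X) ((ContinuousLinearMap.fst ℝ ℝ E).prod (fderiv ℝ X z)) z :=
    hasFDerivAt_fst.prodMk (dfa hI h.sm hz).hasFDerivAt
  have hinj : Function.Injective ((ContinuousLinearMap.fst ℝ ℝ E).prod (fderiv ℝ X z)) := by
    rw [injective_iff_map_eq_zero]
    rintro ⟨s, v⟩ hv
    have e1 : s = 0 := congrArg Prod.fst hv
    have e2 : fderiv ℝ X z (s, v) = 0 := congrArg Prod.snd hv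
    subst e1
    have : v = 0 := hd z hz (by rw [Da_apply, e2, map_zero])
    rw [this]; rfl
  refine ⟨ContinuousLinearEquiv.ofBijective _ (LinearMap.ker_eq_bot.2 hinj)
    (LinearMap.range_eq_top.2 (LinearMap.injective_iff_surjective.1 hinj)), ?_⟩
  rw [ContinuousLinearEquiv.coe_ofBijective]
  exact h1

theorem Hom1.cda_Phi (hI : IsOpen I) (h : Hom1 I X) {z : ℝ × E} (hz : z ∈ Om I) :
    ContDiffAt ℝ ∞ (Phi X) z := contDiffAt_fst.prodMk (cda hI h.sm hz)

/-- two-sided bound on compact time sets -/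
theorem Hom1.two_sided (hI : IsOpen I) (h : Hom1 I X)
    (hd : ∀ z ∈ Om I, Function.Injective (Da X z)) {K : Set ℝ} (hK : IsCompact K) (hKI : K ⊆ I) :
    ∃ c C : ℝ, 0 < c ∧ 0 < C ∧ ∀ t ∈ K, ∀ a : E, a ≠ 0 →
      c * ‖a‖ ≤ ‖X (t, a)‖ ∧ ‖X (t, a)‖ ≤ C * ‖a‖ := by
  have hc : IsCompact (K ×ˢ sphere (0 : E) 1) := hK.prod (isCompact_sphere _ _)
  have hs : K ×ˢ sphere (0 : E) 1 ⊆ Om I := by
    rintro z ⟨h1, h2⟩
    refine ⟨hKI h1, fun h0 => ?_⟩
    rw [mem_singleton_iff.1 h0] at h2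
    simp at h2
  have hco : ContinuousOn (fun z => ‖X z‖) (K ×ˢ sphere (0 : E) 1) :=
    (h.sm.continuousOn.mono hs).norm
  obtain ⟨c, hc0, hc1⟩ := hc.exists_forall_le' hco (a := 0)
    (fun z hz => norm_pos_iff.2 (h.ne_zero hI hd (hs hz)))
  obtain ⟨C, hC⟩ := hc.exists_bound_of_continuousOn (h.sm.continuousOn.mono hs)
  refine ⟨c, max C 1, hc0, by positivity, fun t ht a ha => ?_⟩
  have hn : 0 < ‖a‖ := norm_pos_iff.2 ha
  have hm : (t, ‖a‖⁻¹ • a) ∈ K ×ˢ sphere (0 : E) 1 := ⟨ht, by simp [norm_smul, hn.ne']⟩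
  have e := h.hom _ (hs hm) ‖a‖ hn
  simp only [smul_smul, mul_inv_cancel₀ hn.ne', one_smul] at e
  rw [e, norm_smul, norm_norm]
  have := hc1 _ hm
  have := hC _ hm
  have := le_max_left C 1
  constructor <;> nlinarith

/-- a degree one map whose derivative is close to the identity -/
theorem Hom1.start (hI : IsOpen I) (h : Hom1 I X) {t : ℝ} (ht : t ∈ I)
    (hs : ∀ a : E, a ≠ 0 → ‖Da X (t, a) - ContinuousLinearMap.id ℝ E‖ ≤ 1 / 2) (y : E)
    (hy : y ≠ 0) : ∃! a : E, a ≠ 0 ∧ X (t, a) = y := by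
  classical
  let g : E → E := fun a => if a = 0 then 0 else X (t, a) - a
  have hg : ∀ a : E, a ≠ 0 → HasFDerivAt g (Da X (t, a) - ContinuousLinearMap.id ℝ E) a := by
    intro a ha
    refine ((hasFDerivAt_Da (dfa hI h.sm (z := (t, a)) ⟨ht, ha⟩)).sub
      (hasFDerivAt_id a)).congr_of_eventuallyEq ?_
    filter_upwards [isOpen_compl_singleton.mem_nhds ha] with b hb
    exact if_neg hb
  have hr : ∀ a : E, ‖g a‖ ≤ 1 / 2 * ‖a‖ := by
    intro a
    by_cases ha : a = 0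
    · simp [g, ha]
    · have e := h.euler hI (z := (t, a)) ⟨ht, ha⟩
      have : g a = (Da X (t, a) - ContinuousLinearMap.id ℝ E) a := by
        simp only [g, if_neg ha, sub_apply, ContinuousLinearMap.id_apply]
        rw [← e]
      rw [this]
      exact (ContinuousLinearMap.le_opNorm _ _).trans
        (mul_le_mul_of_nonneg_right (hs a ha) (norm_nonneg _))
  have hL : ∀ a b : E, ‖g a - g b‖ ≤ 1 / 2 * ‖a - b‖ := by
    intro a b
    by_cases h0 : (0 : E) ∈ segment ℝ b a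
    · have := dist_add_dist_of_mem_segment h0
      rw [dist_zero_right, dist_zero_left, dist_comm, dist_eq_norm] at this
      have h1 := hr a
      have h2 := hr b
      have := norm_sub_le (g a) (g b)
      linarith
    · have hne : ∀ x ∈ segment ℝ b a, x ≠ 0 := fun x hx e => h0 (e ▸ hx)
      exact (convex_segment b a).norm_image_sub_le_of_norm_hasFDerivWithin_le
        (fun x hx => (hg x (hne x hx)).hasFDerivWithinAt) (fun x hx => hs x (hne x hx))
        (left_mem_segment _ _ _) (right_mem_segment _ _ _)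
  have hA : ApproximatesLinearOn (fun a => g a + a)
      ((ContinuousLinearEquiv.refl ℝ E : E ≃L[ℝ] E) : E →L[ℝ] E) univ (1 / 2) := by
    intro a _ b _
    have : g a + a - (g b + b) - ((ContinuousLinearEquiv.refl ℝ E : E ≃L[ℝ] E) : E →L[ℝ] E) (a - b)
        = g a - g b := by simp; abel
    rw [this]
    simpa using hL a b
  have hc : Subsingleton E ∨ (1 / 2 : ℝ≥0) <
      ‖((ContinuousLinearEquiv.refl ℝ E).symm : E →L[ℝ] E)‖₊⁻¹ := by
    right
    simp only [ContinuousLinearEquiv.refl_symm, ContinuousLinearEquiv.coe_refl,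
      ContinuousLinearMap.nnnorm_id, inv_one]
    norm_num
  obtain ⟨a, ha⟩ := hA.surjective hc y
  have ha0 : a ≠ 0 := by
    rintro rfl
    simp [g] at ha
    exact hy ha.symm
  refine ⟨a, ⟨ha0, by simpa [g, ha0] using ha⟩, fun b hb => ?_⟩
  refine hA.injOn hc (mem_univ _) (mem_univ _) ?_
  refine Eq.trans ?_ ha.symm
  simp [g, hb.1, hb.2]

/-- Bij: the flow map is a bijection of the punctured space at all times -/
theorem Hom1.bijOn (hI : IsOpen I) (hI' : IsPreconnected I) (h : Hom1 I X)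
    (hd : ∀ z ∈ Om I, Function.Injective (Da X z)) {t : ℝ} (ht : t ∈ I)
    (hs : ∀ a : E, a ≠ 0 → ‖Da X (t, a) - ContinuousLinearMap.id ℝ E‖ ≤ 1 / 2) :
    BijOn (Phi X) (Om I) (Om I) := by
  have hm := h.maps hI hd
  have : PreconnectedSpace (Om I) := Subtype.preconnectedSpace (isPreconnected_Om hI')
  have : LocallyCompactSpace (Om I) := (isOpen_Om hI).locallyCompactSpace
  have hco : ContinuousOn (Phi X) (Om I) := fun z hz =>
    (h.cda_Phi hI hz).continuousAt.continuousWithinAt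
  obtain ⟨φ, hφ⟩ : ∃ φ : Om I → Om I, ∀ z, (φ z : ℝ × E) = Phi X z :=
    ⟨fun z => ⟨Phi X z, hm z.2⟩, fun _ => rfl⟩
  have hφ' : Subtype.val ∘ φ = Phi X ∘ Subtype.val := funext hφ
  have hc : Continuous φ := by
    rw [Topology.IsInducing.subtypeVal.continuous_iff, hφ']
    exact hco.domRestrict
  have hemb := (isOpen_Om hI).isOpenEmbedding_subtypeVal
  have hb : Function.Bijective φ := by
    obtain ⟨y, hy⟩ := exists_ne (0 : E)
    refine bij_of_clopen _ ?_ ?_ ?_ ⟨(t, y), ht, hy⟩ ?_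
    · rw [isOpenMap_iff_nhds_le]
      intro z
      obtain ⟨L, hL⟩ := h.equiv hI hd z.2
      have e := ((h.cda_Phi hI z.2).hasStrictFDerivAt' hL (by simp)).map_nhds_eq_of_equiv
      intro s hs'
      rw [← hemb.map_nhds_eq z] at e
      have e2 : map Subtype.val (map φ (𝓝 z)) = map Subtype.val (𝓝 (φ z)) := by
        rw [hemb.map_nhds_eq, map_map, hφ', hφ]
        rw [map_map] at e
        exact e
      rw [← map_injective Subtype.val_injective e2]
      exact hs'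
    · refine IsProperMap.isClosedMap (isProperMap_iff_isCompact_preimage.2 ⟨hc, fun K hK => ?_⟩)
      have hK' : IsCompact (Subtype.val '' K) := hK.image continuous_subtype_val
      have hK1 : IsCompact (Prod.fst '' (Subtype.val '' K)) := hK'.image continuous_fst
      obtain ⟨c, C, hc0, hC0, hb⟩ := h.two_sided hI hd hK1 (by
        rintro _ ⟨_, ⟨z, -, rfl⟩, rfl⟩; exact z.2.1)
      obtain ⟨r, hr0, hr⟩ := hK'.exists_forall_le' (f := fun z => ‖z.2‖) (by fun_prop) (a := 0) (by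
        rintro _ ⟨z, -, rfl⟩; exact norm_pos_iff.2 z.2.2)
      obtain ⟨R, hR⟩ := hK'.exists_bound_of_continuousOn (f := fun z => z.2) (by fun_prop)
      have hN : IsCompact ((Prod.fst '' (Subtype.val '' K)) ×ˢ
          (closedBall (0 : E) (R / c) \ ball 0 (r / C))) :=
        hK1.prod ((isCompact_closedBall _ _).diff isOpen_ball)
      have hNs : ((Prod.fst '' (Subtype.val '' K)) ×ˢ
          (closedBall (0 : E) (R / c) \ ball 0 (r / C))) ⊆ range (Subtype.val : Om I → ℝ × E) := by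
        rw [Subtype.range_coe]
        rintro z ⟨⟨_, ⟨w, -, rfl⟩, hw⟩, -, h3⟩
        refine ⟨hw ▸ w.2.1, fun h0 => h3 ?_⟩
        rw [mem_singleton_iff.1 h0]
        exact mem_ball_self (by positivity)
      refine (hemb.isInducing.isCompact_preimage' hN hNs).of_isClosed_subset
        (hK.isClosed.preimage hc) ?_
      intro z hz
      have hz1 : (Phi X z) ∈ Subtype.val '' K := ⟨_, hz, hφ z⟩
      have hz2 : z.1.1 ∈ Prod.fst '' (Subtype.val '' K) := ⟨_, hz1, rfl⟩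
      obtain ⟨b1, b2⟩ := hb _ hz2 z.1.2 z.2.2
      have b3 : r ≤ ‖X (z.1.1, z.1.2)‖ := by simpa only [Phi] using hr _ hz1
      have b4 : ‖X (z.1.1, z.1.2)‖ ≤ R := by simpa only [Phi] using hR _ hz1
      refine ⟨hz2, ?_, ?_⟩
      · rw [mem_closedBall_zero_iff, le_div_iff₀ hc0]
        exact (mul_comm _ _).trans_le (b1.trans b4)
      · rw [mem_ball_zero_iff, not_lt, div_le_iff₀ hC0]
        exact (b3.trans b2).trans_eq (mul_comm _ _)
    · intro z
      obtain ⟨L, hL⟩ := h.equiv hI hd z.2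
      have hst := (h.cda_Phi hI z.2).hasStrictFDerivAt' hL (by simp)
      refine ⟨Subtype.val ⁻¹' (hst.toOpenPartialHomeomorph _).source,
        (hst.toOpenPartialHomeomorph _).open_source.preimage continuous_subtype_val,
        hst.mem_toOpenPartialHomeomorph_source, fun a ha b hb hab => ?_⟩
      have hab' : Phi X a = Phi X b := by rw [← hφ, ← hφ, hab]
      exact Subtype.ext ((hst.toOpenPartialHomeomorph _).injOn ha hb hab')
    · obtain ⟨a, ⟨ha, hay⟩, hu⟩ := h.start hI ht hs y hy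
      refine ⟨⟨(t, a), ht, ha⟩, Subtype.ext ((hφ _).trans (Prod.ext rfl hay)), ?_⟩
      rintro ⟨⟨s, b⟩, hb⟩ e
      have e' : Phi X (s, b) = (t, y) := (hφ ⟨(s, b), hb⟩).symm.trans (congrArg Subtype.val e)
      have e1 : s = t := congrArg Prod.fst e'
      subst e1
      have e2 : b = a := hu b ⟨hb.2, congrArg Prod.snd e'⟩
      subst e2
      rfl
  refine ⟨hm, fun x hx y hy e => ?_, fun y hy => ?_⟩
  · have : φ ⟨x, hx⟩ = φ ⟨y, hy⟩ := Subtype.ext (by rw [hφ, hφ, e])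
    exact congrArg Subtype.val (hb.1 this)
  · obtain ⟨z, hz⟩ := hb.2 ⟨y, hy⟩
    exact ⟨z, z.2, (hφ z).symm.trans (congrArg Subtype.val hz)⟩

/-- the inverse of the space-time map is smooth -/
theorem Hom1.inv_smooth (hI : IsOpen I) (h : Hom1 I X)
    (hd : ∀ z ∈ Om I, Function.Injective (Da X z)) (hb : BijOn (Phi X) (Om I) (Om I)) :
    ∃ Ψ : ℝ × E → ℝ × E, ContDiffOn ℝ ∞ Ψ (Om I) ∧ MapsTo Ψ (Om I) (Om I) ∧
      (∀ z ∈ Om I, Ψ (Phi X z) = z) ∧ ∀ y ∈ Om I, Phi X (Ψ y) = y := by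
  have hi := hb.invOn_invFunOn
  refine ⟨Function.invFunOn (Phi X) (Om I), fun y hy => ?_, hb.surjOn.mapsTo_invFunOn,
    fun z hz => hi.1 hz, fun y hy => hi.2 hy⟩
  obtain ⟨z, hz, rfl⟩ := hb.surjOn hy
  obtain ⟨L, hL⟩ := h.equiv hI hd hz
  have h1 := (h.cda_Phi hI hz).to_localInverse hL (by simp)
  have h2 := ((h.cda_Phi hI hz).hasStrictFDerivAt' hL (by simp)).localInverse_unique
    (g := Function.invFunOn (Phi X) (Om I)) (by
      filter_upwards [(isOpen_Om hI).mem_nhds hz] with w hw using hi.1 hw)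
  exact (h1.congr_of_eventuallyEq h2).contDiffWithinAt

theorem Da_eq {F : Type*} [NormedAddCommGroup F] [NormedSpace ℝ F] {f : ℝ × E → F} {z : ℝ × E}
    (h : DifferentiableAt ℝ f z) : fderiv ℝ (fun a => f (z.1, a)) z.2 = Da f z :=
  (hasFDerivAt_Da h).fderiv

theorem inj_of_det {A : E →L[ℝ] E} (h : A.det ≠ 0) : Function.Injective A :=
  (LinearMap.equivOfDetNeZero (A : E →ₗ[ℝ] E) h).injective

theorem Hom1.da_sphere {F : Type*} [NormedAddCommGroup F] [NormedSpace ℝ F] {f : ℝ × E → F}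
    (hI : IsOpen I) (h : Hom1 I f) {t : ℝ} (ht : t ∈ I) {a : E} (ha : a ≠ 0) :
    ∃ b : E, ‖b‖ = 1 ∧ Da f (t, a) = Da f (t, b) := by
  have hn : 0 < ‖a‖ := norm_pos_iff.2 ha
  exact ⟨‖a‖⁻¹ • a, by simp [norm_smul, hn.ne'],
    (h.da_smul hI (z := (t, a)) ⟨ht, ha⟩ (inv_pos.2 hn)).symm⟩

/-- the inverse flow -/
theorem Hom1.inverse (hI : IsOpen I) (hI' : IsPreconnected I) (h : Hom1 I X)
    (hd : ∀ z ∈ Om I, Function.Injective (Da X z)) {t : ℝ} (ht : t ∈ I)
    (hs : ∀ a : E, ‖a‖ = 1 → ‖Da X (t, a) - 1‖ ≤ 1 / 2) :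
    ∃ Y : ℝ × E → E, Hom1 I Y ∧ ∀ z ∈ Om I, X z ≠ 0 ∧ Y z ≠ 0 ∧ Y (z.1, X z) = z.2 ∧
      X (z.1, Y z) = z.2 := by
  have hb := h.bijOn hI hI' hd ht fun a ha => by
    obtain ⟨b, hb, e⟩ := h.da_sphere hI ht ha
    rw [e]; exact hs b hb
  obtain ⟨Ψ, h1, h2, h3, h4⟩ := h.inv_smooth hI hd hb
  have h5 : ∀ z ∈ Om I, Ψ z = (z.1, (Ψ z).2) := fun z hz =>
    Prod.ext (congrArg Prod.fst (h4 z hz) :) rfl
  have h6 : ∀ z ∈ Om I, X (z.1, (Ψ z).2) = z.2 := fun z hz => by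
    rw [← h5 z hz]; exact congrArg Prod.snd (h4 z hz)
  refine ⟨fun z => (Ψ z).2, ⟨h1.snd, fun z hz l hl => ?_⟩, fun z hz =>
    ⟨h.ne_zero hI hd hz, (h2 hz).2, congrArg Prod.snd (h3 z hz), h6 z hz⟩⟩
  have hz' : (z.1, (Ψ z).2) ∈ Om I := ⟨hz.1, (h2 hz).2⟩
  have e := h3 (z.1, l • (Ψ z).2) ⟨hz.1, smul_ne_zero hl.ne' (h2 hz).2⟩
  have e2 := h.hom _ hz' l hl
  simp only [Phi] at e e2
  rw [e2, h6 z hz] at e
  exact congrArg Prod.snd e

end Pool.Agent.Lib.MP_fbbbeb_an.Lag
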