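import Mathlib
import Pool.Agent.Lib.MP_fbbbeb_an.Lag.Bij

/-! From a Lagrangian flow map to a solution of the Euler equations. -/

set_option autoImplicit false

namespace Pool.Agent.Lib.MP_fbbbeb_an.Lag

open scoped ContDiff RealInnerProductSpace Topology
open Set Filter Metric
open Pool.Agent.Lib.MP_fbbbeb_an.Pub

section Gen
variable {F : Type*} [NormedAddCommGroup F] [NormedSpace ℝ F] {I : Set ℝ} {f : ℝ × E → F}
  {X Y : ℝ × E → E}

/-- time and space derivatives commute -/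
theorem hasDerivAt_Da (hI : IsOpen I) (h : ContDiffOn ℝ ∞ f (Om I)) {z : ℝ × E} (hz : z ∈ Om I)
    (k : E) : HasDerivAt (fun t => Da f (t, z.2) k) (Da (Dt f) z k) z.1 := by
  have hs : IsSymmSndFDerivAt ℝ f z :=
    (cda hI h hz).isSymmSndFDerivAt (by simpa using (by decide : (2 : WithTop ℕ∞) ≤ ∞))
  have hd := dfa hI (sm_fderiv hI h) hz
  have key : ∀ a b : ℝ × E, fderiv ℝ (fun w => fderiv ℝ f w b) z a =
      fderiv ℝ (fderiv ℝ f) z a b := by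
    intro a b
    rw [fderiv_clm_apply hd (differentiableAt_const _)]
    simp
  refine (hasDerivAt_Dt (dfa hI (sm_pd hI h (0, k)) hz)).congr_deriv ?_
  rw [Dt, key, hs.eq, ← key]
  rfl

theorem sm_comp (h : ContDiffOn ℝ ∞ f (Om I)) (hY : ContDiffOn ℝ ∞ Y (Om I))
    (h0 : ∀ z ∈ Om I, Y z ≠ 0) : ContDiffOn ℝ ∞ (fun z : ℝ × E => f (z.1, Y z)) (Om I) :=
  h.comp (contDiffOn_fst.prodMk hY) fun z hz => ⟨hz.1, h0 z hz⟩

/-- chain rule along the flow -/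
theorem chain {g : ℝ × E → F} (hI : IsOpen I) (hg : ContDiffOn ℝ ∞ g (Om I))
    (hX : ContDiffOn ℝ ∞ X (Om I)) (h0 : ∀ z ∈ Om I, X z ≠ 0)
    (e : ∀ z ∈ Om I, g (z.1, X z) = f z) {z : ℝ × E} (hz : z ∈ Om I) :
    (∀ k, Da g (z.1, X z) (Da X z k) = Da f z k) ∧
      Dt g (z.1, X z) + Da g (z.1, X z) (Dt X z) = Dt f z := by
  have h1 : HasFDerivAt (Phi X) ((ContinuousLinearMap.fst ℝ ℝ E).prod (fderiv ℝ X z)) z :=
    hasFDerivAt_fst.prodMk (dfa hI hX hz).hasFDerivAt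
  have h2 := (dfa hI hg (z := Phi X z) ⟨hz.1, h0 z hz⟩).hasFDerivAt.comp z h1
  have h3 : fderiv ℝ f z = _ := (h2.congr_of_eventuallyEq (f₁ := f) (by
    filter_upwards [(isOpen_Om hI).mem_nhds hz] with w hw using (e w hw).symm)).fderiv
  refine ⟨fun k => ?_, ?_⟩
  · rw [Da_apply f, h3]; rfl
  · rw [Dt.eq_1 f, h3]
    have := fderiv_split g (z.1, X z) 1 (Dt X z)
    rw [one_smul] at this
    exact this.symm

theorem Dt_eqv {G : Type*} [NormedAddCommGroup G] [NormedSpace ℝ G] {g : ℝ × E → G}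
    (hI : IsOpen I) (hf : ContDiffOn ℝ ∞ f (Om I)) (hg : ContDiffOn ℝ ∞ g (Om I))
    (O : E ≃ₗᵢ[ℝ] E) (L : G →L[ℝ] F) (e : ∀ z ∈ Om I, f (z.1, O z.2) = L (g z)) {z : ℝ × E}
    (hz : z ∈ Om I) : Dt f (z.1, O z.2) = L (Dt g z) := by
  have hz' : (z.1, O z.2) ∈ Om I := ⟨hz.1, by simpa using hz.2⟩
  have h1 := hasDerivAt_Dt (dfa hI hf hz')
  have h2 := L.hasFDerivAt.comp_hasDerivAt z.1 (hasDerivAt_Dt (dfa hI hg hz))
  refine h1.unique (h2.congr_of_eventuallyEq ?_)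
  filter_upwards [hI.mem_nhds hz.1] with t ht
  exact e (t, z.2) ⟨ht, hz.2⟩

end Gen

/-- a curve of maps of determinant one has a traceless logarithmic derivative -/
theorem tr_zero {Fm : ℝ → E →L[ℝ] E} {B : E →L[ℝ] E} {s : ℝ}
    (hd : ∀ k, HasDerivAt (fun t => Fm t k) (B (Fm s k)) s)
    (h1 : ∀ᶠ t in 𝓝 s, (Fm t).det = 1) : tr (B : E →ₗ[ℝ] E) = 0 := by
  let b := (EuclideanSpace.basisFun (Fin 3) ℝ).toBasis
  let m : ℝ → Matrix (Fin 3) (Fin 3) ℝ := fun t => LinearMap.toMatrix b b (Fm t : E →ₗ[ℝ] E)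
  let q : Matrix (Fin 3) (Fin 3) ℝ := LinearMap.toMatrix b b (B : E →ₗ[ℝ] E)
  have hm : ∀ t, (m t).det = (Fm t).det := fun t => LinearMap.det_toMatrix b _
  have he : ∀ i j, HasDerivAt (fun t => m t i j) ((q * m s) i j) s := by
    intro i j
    have := (EuclideanSpace.proj (𝕜 := ℝ) i : E →L[ℝ] ℝ).hasFDerivAt.comp_hasDerivAt s (hd (b j))
    have e1 : (q * m s) i j = (B (Fm s (b j))) i := by
      simp only [q, m]
      rw [← LinearMap.toMatrix_comp, LinearMap.toMatrix_apply]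
      simp [b]
    rw [e1]
    refine this.congr_of_eventuallyEq (Eventually.of_forall fun t => ?_)
    simp [m, LinearMap.toMatrix_apply, b]
  have hdet : HasDerivAt (fun t => (m t).det) (q.trace * (m s).det) s := by
    simp only [Matrix.det_fin_three]
    refine ((((((((he 0 0).fun_mul (he 1 1)).fun_mul (he 2 2)).fun_sub
      (((he 0 0).fun_mul (he 1 2)).fun_mul (he 2 1))).fun_sub
      (((he 0 1).fun_mul (he 1 0)).fun_mul (he 2 2))).fun_add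
      (((he 0 1).fun_mul (he 1 2)).fun_mul (he 2 0))).fun_add
      (((he 0 2).fun_mul (he 1 0)).fun_mul (he 2 1))).fun_sub
      (((he 0 2).fun_mul (he 1 1)).fun_mul (he 2 0))).congr_deriv ?_
    simp only [Matrix.mul_apply, Matrix.trace, Matrix.diag, Fin.sum_univ_three]
    ring
  have h2 := hdet.unique ((hasDerivAt_const s (1 : ℝ)).congr_of_eventuallyEq (by
    filter_upwards [h1] with t ht using (hm t).trans ht))
  rw [hm, h1.self_of_nhds, mul_one] at h2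
  rw [tr, LinearMap.trace_eq_matrix_trace ℝ b]
  exact h2

variable {I : Set ℝ} {X : ℝ × E → E} {M : Set (E ≃ₗᵢ[ℝ] E)}

/-- the Lagrangian pressure -/
noncomputable def Pr (X : ℝ × E → E) (z : ℝ × E) : ℝ := -(1 / 2) * ⟪Dt (Dt X) z, X z⟫

theorem Pr_sm (hI : IsOpen I) (h : Hom1 I X) : ContDiffOn ℝ ∞ (Pr X) (Om I) :=
  contDiffOn_const.mul ((sm_Dt hI (sm_Dt hI h.sm)).inner ℝ h.sm)

theorem Da_Pr (hI : IsOpen I) (h : Hom1 I X) {z : ℝ × E} (hz : z ∈ Om I)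
    (hs : ∀ v w, ⟪Da X z v, Da (Dt (Dt X)) z w⟫ = ⟪Da X z w, Da (Dt (Dt X)) z v⟫) (k : E) :
    Da (Pr X) z k = -⟪Dt (Dt X) z, Da X z k⟫ := by
  have h2 := (h.dt hI).dt hI
  have a := ((hasFDerivAt_Da (dfa hI h2.sm hz)).inner ℝ (hasFDerivAt_Da (dfa hI h.sm hz))).const_mul
    (-(1 / 2) : ℝ)
  have b := (hasFDerivAt_Da (dfa hI (Pr_sm hI h) hz)).unique a
  have c := hs z.2 k
  rw [h.euler hI hz, h2.euler hI hz] at c
  rw [b]
  simp only [smul_apply, ContinuousLinearMap.comp_apply, ContinuousLinearMap.prod_apply,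
    fderivInnerCLM_apply, smul_eq_mul, Prod.mk.eta]
  rw [real_inner_comm (X z), c, real_inner_comm (Dt (Dt X) z)]
  ring

/-- the Eulerian solution of a Lagrangian flow map -/
theorem sol (hI : IsOpen I) (hI' : IsPreconnected I) (h : Hom1 I X)
    (hM : ∀ z ∈ Om I, ∀ O ∈ M, X (z.1, O z.2) = O (X z))
    (hd : ∀ z ∈ Om I, (Da X z).det = 1)
    (hs : ∀ z ∈ Om I, ∀ v w, ⟪Da X z v, Da (Dt (Dt X)) z w⟫ = ⟪Da X z w, Da (Dt (Dt X)) z v⟫)
    {t₀ : ℝ} (ht₀ : t₀ ∈ I) (hn : ∀ a : E, ‖a‖ = 1 → ‖Da X (t₀, a) - 1‖ ≤ 1 / 2) :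
    ∃ (u : ℝ → E → E) (p : ℝ → E → ℝ), IsSol M I u p ∧
      (∀ t ∈ I, ∀ x : E, x ≠ 0 →
        (∀ l : ℝ, 0 < l → p t (l • x) = l ^ 2 * p t x) ∧ ∀ O ∈ M, p t (O x) = p t x) ∧
      ∀ z ∈ Om I, X z ≠ 0 ∧ ∀ k, HasDerivAt (fun t => Da X (t, z.2) k)
        (fderiv ℝ (u z.1) (X z) (Da X z k)) z.1 := by
  have hi : ∀ z ∈ Om I, Function.Injective (Da X z) := fun z hz =>
    inj_of_det (by rw [hd z hz]; exact one_ne_zero)
  obtain ⟨Y, hY, hXY⟩ := h.inverse hI hI' hi ht₀ hn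
  have h1 := h.dt hI
  have h2 := h1.dt hI
  have hX0 : ∀ z ∈ Om I, X z ≠ 0 := fun z hz => (hXY z hz).1
  have hY0 : ∀ z ∈ Om I, Y z ≠ 0 := fun z hz => (hXY z hz).2.1
  have hYO : ∀ z ∈ Om I, ∀ O ∈ M, Y (z.1, O z.2) = O (Y z) := by
    intro z hz O hO
    have a := (hXY (z.1, O (Y z)) ⟨hz.1, by simpa using hY0 z hz⟩).2.2.1
    have b := hM (z.1, Y z) ⟨hz.1, hY0 z hz⟩ O hO
    simp only at a b
    rwa [b, (hXY z hz).2.2.2] at a
  have hM1 : ∀ z ∈ Om I, ∀ O ∈ M, Dt X (z.1, O z.2) = O (Dt X z) := fun z hz O hO =>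
    Dt_eqv hI h.sm h.sm O O.toContinuousLinearEquiv (fun w hw => hM w hw O hO) hz
  have hM2 : ∀ z ∈ Om I, ∀ O ∈ M, Dt (Dt X) (z.1, O z.2) = O (Dt (Dt X) z) := fun z hz O hO =>
    Dt_eqv hI h1.sm h1.sm O O.toContinuousLinearEquiv (fun w hw => hM1 w hw O hO) hz
  obtain ⟨U, hU⟩ : ∃ U : ℝ × E → E, U = fun z => Dt X (z.1, Y z) := ⟨_, rfl⟩
  obtain ⟨P, hP⟩ : ∃ P : ℝ × E → ℝ, P = fun z => Pr X (z.1, Y z) := ⟨_, rfl⟩
  have Us : ContDiffOn ℝ ∞ U (Om I) := hU ▸ sm_comp h1.sm hY.sm hY0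
  have Ps : ContDiffOn ℝ ∞ P (Om I) := hP ▸ sm_comp (Pr_sm hI h) hY.sm hY0
  have Ue : ∀ z ∈ Om I, U (z.1, X z) = Dt X z := fun z hz => by
    simp only [hU, (hXY z hz).2.2.1]
  have Pe : ∀ z ∈ Om I, P (z.1, X z) = Pr X z := fun z hz => by
    simp only [hP, (hXY z hz).2.2.1]
  have key : ∀ z ∈ Om I, ∀ k, HasDerivAt (fun t => Da X (t, z.2) k)
      (fderiv ℝ (fun x => U (z.1, x)) (X z) (Da X z k)) z.1 := by
    intro z hz k
    rw [Da_eq (dfa hI Us (z := (z.1, X z)) ⟨hz.1, hX0 z hz⟩), (chain hI Us h.sm hX0 Ue hz).1]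
    exact hasDerivAt_Da hI h.sm hz k
  refine ⟨fun t x => U (t, x), fun t x => P (t, x), ⟨⟨Us, Ps⟩, fun t ht x hx => ?_⟩,
    fun t ht x hx => ⟨fun l hl => ?_, fun O hO => ?_⟩, fun z hz => ⟨hX0 z hz, key z hz⟩⟩
  · have hy : (t, x) ∈ Om I := ⟨ht, hx⟩
    have hz : (t, Y (t, x)) ∈ Om I := ⟨ht, hY0 _ hy⟩
    have hx' : X (t, Y (t, x)) = x := (hXY _ hy).2.2.2
    refine ⟨?_, ?_, fun l hl => ?_, fun O hO => ?_⟩
    · have a := (chain hI Us h.sm hX0 Ue hz).2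
      have b := (chain hI Ps h.sm hX0 Pe hz).1
      have c := Ue _ hz
      simp only [hx'] at a b c
      have g : gradient (fun x => P (t, x)) x = -Dt (Dt X) (t, Y (t, x)) := by
        apply HasGradientAt.gradient
        rw [hasGradientAt_iff_hasFDerivAt]
        refine (hasFDerivAt_Da (dfa hI Ps hy)).congr_fderiv ?_
        ext v
        obtain ⟨k, rfl⟩ := LinearMap.injective_iff_surjective.1
          (show Function.Injective (Da X (t, Y (t, x)) : E →ₗ[ℝ] E) from hi _ hz) v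
        simp only [ContinuousLinearMap.coe_coe]
        rw [b, Da_Pr hI h hz (hs _ hz)]
        simp
      simp only [Euler, adv]
      rw [g, (hasDerivAt_Dt (dfa hI Us hy)).deriv, Da_eq (dfa hI Us hy), c, a, add_neg_cancel]
    · have a := key _ hz
      simp only [hx'] at a
      refine tr_zero (Fm := fun s => Da X (s, Y (t, x))) a ?_
      filter_upwards [hI.mem_nhds ht] with s hs using hd (s, _) ⟨hs, hz.2⟩
    · have a := hY.hom _ hy l hl
      have b := h1.hom _ hz l hl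
      simp only at a b
      simp only [hU, a, b]
    · have a := hYO _ hy O hO
      have b := hM1 _ hz O hO
      simp only at a b
      simp only [hU, a, b]
  · have hy : (t, x) ∈ Om I := ⟨ht, hx⟩
    have hz : (t, Y (t, x)) ∈ Om I := ⟨ht, hY0 _ hy⟩
    have a := hY.hom _ hy l hl
    have b := h2.hom _ hz l hl
    have c := h.hom _ hz l hl
    simp only at a b c
    simp only [hP, Pr, a, b, c, real_inner_smul_left, real_inner_smul_right]
    ring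
  · have hy : (t, x) ∈ Om I := ⟨ht, hx⟩
    have hz : (t, Y (t, x)) ∈ Om I := ⟨ht, hY0 _ hy⟩
    have a := hYO _ hy O hO
    have b := hM2 _ hz O hO
    have c := hM _ hz O hO
    simp only at a b c
    simp only [hP, Pr, a, b, c, LinearIsometryEquiv.inner_map_map]

end Pool.Agent.Lib.MP_fbbbeb_an.Lag
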