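import Mathlib
import Pool.Agent.Lib.MP_fbbbeb_an.Lag.Sol

/-! Unbounded deformation gradient, the blow-up integral, time shift, no continuation. -/

set_option autoImplicit false

namespace Pool.Agent.Lib.MP_fbbbeb_an.Lag

open scoped ContDiff RealInnerProductSpace Topology ENNReal
open Set Filter Metric MeasureTheory
open Pool.Agent.Lib.MP_fbbbeb_an.Pub

/-- Gronwall inequality with a variable coefficient -/
theorem gron {a s : ℝ} (has : a ≤ s) {b : ℝ → ℝ} (hb : Continuous b) {y y' : ℝ → E}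
    (hy : ∀ t ∈ Icc a s, HasDerivAt y (y' t) t) (hle : ∀ t ∈ Icc a s, ‖y' t‖ ≤ b t * ‖y t‖) :
    ‖y s‖ ≤ ‖y a‖ * Real.exp (∫ t in a..s, b t) := by
  have hβ : ∀ t, HasDerivAt (fun t => ∫ r in a..t, b r) (b t) t := fun t =>
    intervalIntegral.integral_hasDerivAt_right (hb.intervalIntegrable _ _)
      (hb.stronglyMeasurableAtFilter _ _) hb.continuousAt
  have hφ : ∀ t ∈ Icc a s, HasDerivAt (fun t => ‖y t‖ ^ 2 * Real.exp (-2 * ∫ r in a..t, b r))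
      ((2 * ⟪y t, y' t⟫ - 2 * b t * ‖y t‖ ^ 2) * Real.exp (-2 * ∫ r in a..t, b r)) t := by
    intro t ht
    refine ((hy t ht).norm_sq.fun_mul ((hβ t).const_mul (-2)).exp).congr_deriv ?_
    ring
  have hA := antitoneOn_of_deriv_nonpos (convex_Icc a s)
    (fun t ht => (hφ t ht).continuousAt.continuousWithinAt)
    (fun t ht => (hφ t (interior_subset ht)).differentiableAt.differentiableWithinAt)
    (fun t ht => by
      rw [(hφ t (interior_subset ht)).deriv]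
      refine mul_nonpos_of_nonpos_of_nonneg ?_ (Real.exp_pos _).le
      have h1 := real_inner_le_norm (y t) (y' t)
      have h2 := mul_le_mul_of_nonneg_left (hle t (interior_subset ht)) (norm_nonneg (y t))
      nlinarith)
  have h1 := hA (left_mem_Icc.2 has) (right_mem_Icc.2 has) has
  simp only [intervalIntegral.integral_same, mul_zero, Real.exp_zero, mul_one] at h1
  have h2 : Real.exp (-2 * ∫ r in a..s, b r) * Real.exp (∫ r in a..s, b r) ^ 2 = 1 := by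
    rw [sq, ← Real.exp_add, ← Real.exp_add, ← Real.exp_zero]; congr 1; ring
  refine le_of_sq_le_sq ?_ (by positivity)
  calc ‖y s‖ ^ 2 = ‖y s‖ ^ 2 * Real.exp (-2 * ∫ r in a..s, b r) * Real.exp (∫ r in a..s, b r) ^ 2 := by
        rw [mul_assoc, h2, mul_one]
    _ ≤ ‖y a‖ ^ 2 * Real.exp (∫ r in a..s, b r) ^ 2 := mul_le_mul_of_nonneg_right h1 (by positivity)
    _ = _ := by ring

variable {I : Set ℝ} {X : ℝ × E → E} {M : Set (E ≃ₗᵢ[ℝ] E)} {u : ℝ → E → E} {p : ℝ → E → ℝ}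

theorem hom1_of_isSol (h : IsSol M I u p) : Hom1 I fun z : ℝ × E => u z.1 z.2 :=
  ⟨h.1.1, fun z hz l hl => (h.2 z.1 hz.1 z.2 hz.2).2.2.1 l hl⟩

theorem fderiv_eq_Da (hI : IsOpen I) (h : IsSol M I u p) {t : ℝ} (ht : t ∈ I) {x : E} (hx : x ≠ 0) :
    fderiv ℝ (u t) x = Da (fun z : ℝ × E => u z.1 z.2) (t, x) :=
  Da_eq (f := fun z : ℝ × E => u z.1 z.2) (z := (t, x)) (dfa hI h.1.1 ⟨ht, hx⟩)

/-- the velocity gradient is not integrable in time -/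
theorem lint (hI : IsOpen I) (hu : IsSol M I u p) (hX : ContDiffOn ℝ ∞ X (Om I))
    (htr : ∀ z ∈ Om I, X z ≠ 0 ∧ ∀ k, HasDerivAt (fun t => Da X (t, z.2) k)
      (fderiv ℝ (u z.1) (X z) (Da X z k)) z.1) {t₀ T : ℝ} (hsub : Ico t₀ T ⊆ I) {a : E} (ha : a ≠ 0)
    (hbig : ∀ C : ℝ, ∃ t ∈ Ico t₀ T, C < ‖Da X (t, a)‖) :
    ∫⁻ t in Ioo t₀ T, ⨆ x : {x : E // x ≠ 0}, ‖fderiv ℝ (u t) x‖ₑ = ⊤ := by
  by_contra hL
  obtain ⟨s, hs, hC⟩ := hbig (‖Da X (t₀, a)‖ * Real.exp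
    (∫⁻ t in Ioo t₀ T, ⨆ x : {x : E // x ≠ 0}, ‖fderiv ℝ (u t) x‖ₑ).toReal)
  have hsI : ∀ t ∈ Icc t₀ s, (t, a) ∈ Om I := fun t ht => ⟨hsub ⟨ht.1, ht.2.trans_lt hs.2⟩, ha⟩
  have hc : ContinuousOn (fun t => ‖fderiv ℝ (u t) (X (t, a))‖) (Icc t₀ s) := by
    have h1 : ContinuousOn (fun t : ℝ => (t, X (t, a))) (Icc t₀ s) :=
      continuousOn_id.prodMk (hX.continuousOn.comp (by fun_prop) hsI)
    refine (((sm_Da hI hu.1.1).continuousOn.comp h1 fun t ht =>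
      ⟨(hsI t ht).1, (htr _ (hsI t ht)).1⟩).norm).congr fun t ht => ?_
    simp only [Function.comp]
    rw [fderiv_eq_Da hI hu (hsI t ht).1 (htr _ (hsI t ht)).1]
  let b : ℝ → ℝ := IccExtend hs.1 ((Icc t₀ s).domRestrict fun t => ‖fderiv ℝ (u t) (X (t, a))‖)
  have hb : Continuous b := hc.domRestrict.Icc_extend'
  have hbe : ∀ t ∈ Icc t₀ s, b t = ‖fderiv ℝ (u t) (X (t, a))‖ := fun t ht => by
    simp only [b]; rw [IccExtend_of_mem _ _ ht]; rfl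
  have hint : ∫ t in t₀..s, b t ≤
      (∫⁻ t in Ioo t₀ T, ⨆ x : {x : E // x ≠ 0}, ‖fderiv ℝ (u t) x‖ₑ).toReal := by
    rw [← ENNReal.ofReal_le_iff_le_toReal hL, intervalIntegral.integral_of_le hs.1,
      ofReal_integral_eq_lintegral_ofReal (hb.integrableOn_Icc.mono_set Ioc_subset_Icc_self)
        (ae_restrict_of_forall_mem measurableSet_Ioc fun t ht => by
          rw [hbe t (Ioc_subset_Icc_self ht)]; exact norm_nonneg _)]
    refine le_trans (setLIntegral_mono' measurableSet_Ioc fun t ht => ?_)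
      (lintegral_mono_set fun t ht => ⟨ht.1, ht.2.trans_lt hs.2⟩)
    rw [hbe t (Ioc_subset_Icc_self ht), ofReal_norm]
    exact le_iSup (fun x : {x : E // x ≠ 0} => ‖fderiv ℝ (u t) x‖ₑ)
      ⟨X (t, a), (htr _ (hsI t (Ioc_subset_Icc_self ht))).1⟩
  refine absurd hC (not_lt.2 (ContinuousLinearMap.opNorm_le_bound _ (by positivity) fun k => ?_))
  have h1 := gron hs.1 hb (y := fun t => Da X (t, a) k) (fun t ht => (htr _ (hsI t ht)).2 k)
    fun t ht => by rw [hbe t ht]; exact ContinuousLinearMap.le_opNorm _ _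
  refine h1.trans ?_
  rw [mul_right_comm]
  exact mul_le_mul (ContinuousLinearMap.le_opNorm _ _) (Real.exp_le_exp.2 hint) (by positivity)
    (by positivity)

/-- the velocity gradient is bounded on compact time sets -/
theorem grad_bound (hI : IsOpen I) (hu : IsSol M I u p) {K : Set ℝ} (hK : IsCompact K)
    (hKI : K ⊆ I) : ∃ C : ℝ, ∀ t ∈ K, ∀ x : E, x ≠ 0 → ‖fderiv ℝ (u t) x‖ ≤ C := by
  have hs : K ×ˢ sphere (0 : E) 1 ⊆ Om I := by
    rintro z ⟨h1, h2⟩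
    refine ⟨hKI h1, fun h0 => ?_⟩
    rw [mem_singleton_iff.1 h0] at h2
    simp at h2
  obtain ⟨C, hC⟩ := (hK.prod (isCompact_sphere (0 : E) 1)).exists_bound_of_continuousOn
    ((sm_Da hI hu.1.1).continuousOn.mono hs)
  refine ⟨C, fun t ht x hx => ?_⟩
  obtain ⟨b, hb, e⟩ := (hom1_of_isSol hu).da_sphere hI (hKI ht) hx
  rw [fderiv_eq_Da hI hu (hKI ht) hx, e]
  exact hC (t, b) ⟨ht, by simpa using hb⟩

/-- time shift -/
theorem shift (hu : IsSol M I u p) (c : ℝ) {J : Set ℝ} (hJ : ∀ t ∈ J, t + c ∈ I) :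
    IsSol M J (fun t => u (t + c)) fun t => p (t + c) := by
  have hm : ContDiffOn ℝ ∞ (fun z : ℝ × E => (z.1 + c, z.2)) (J ×ˢ {0}ᶜ) :=
    ((contDiff_fst.add contDiff_const).prodMk contDiff_snd).contDiffOn
  refine ⟨⟨hu.1.1.comp hm fun z hz => ⟨hJ _ hz.1, hz.2⟩,
    hu.1.2.comp hm fun z hz => ⟨hJ _ hz.1, hz.2⟩⟩, fun t ht x hx => ?_⟩
  obtain ⟨h1, h2⟩ := hu.2 (t + c) (hJ t ht) x hx
  refine ⟨?_, h2⟩
  simp only [Euler] at h1 ⊢
  rwa [deriv_comp_add_const (fun s => u s x)]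

/-- all scaled derivatives of a function of degree zero are bounded -/
theorem ring_bound {F : Type*} [NormedAddCommGroup F] [NormedSpace ℝ F] {f : E → F}
    (hf : ContDiffOn ℝ ∞ f {0}ᶜ) (hh : ∀ x : E, x ≠ 0 → ∀ l : ℝ, 0 < l → f (l • x) = f x) (k : ℕ) :
    ∃ C : ℝ, ∀ x : E, x ≠ 0 → ‖x‖ ^ k * ‖iteratedFDeriv ℝ k f x‖ ≤ C := by
  have ho : IsOpen ({0}ᶜ : Set E) := isOpen_compl_singleton
  obtain ⟨C, hC⟩ := (isCompact_sphere (0 : E) 1).exists_bound_of_continuousOn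
    ((hf.continuousOn_iteratedFDerivWithin (m := k) (by exact_mod_cast le_top) ho.uniqueDiffOn).mono
      fun x hx h0 => by rw [mem_singleton_iff.1 h0] at hx; simp at hx)
  refine ⟨C, fun x hx => ?_⟩
  have hn : 0 < ‖x‖ := norm_pos_iff.2 hx
  let g : E →L[ℝ] E := ‖x‖⁻¹ • ContinuousLinearMap.id ℝ E
  have hg : g ⁻¹' ({0}ᶜ : Set E) = {0}ᶜ := by
    ext y; simp [g, hn.ne']
  have h1 := g.iteratedFDerivWithin_comp_right hf ho.uniqueDiffOn (by rw [hg]; exact ho.uniqueDiffOn)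
    (x := x) (by simp [g, hn.ne', hx]) (i := k) (by exact_mod_cast le_top)
  have e : EqOn (f ∘ g) f ({0}ᶜ : Set E) := fun y hy => hh y hy _ (inv_pos.2 hn)
  rw [hg, iteratedFDerivWithin_congr e (show x ∈ ({0}ᶜ : Set E) from hx),
    iteratedFDerivWithin_of_isOpen k ho hx] at h1
  have h2 := (iteratedFDerivWithin ℝ k f {0}ᶜ (g x)).norm_compContinuousLinearMap_le fun _ => g
  have h3 : ‖g‖ = ‖x‖⁻¹ := by simp [g, norm_smul]
  have h4 := hC (g x) (by simp [g, norm_smul, hn.ne'])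
  rw [← h1, h3, Finset.prod_const, Finset.card_univ, Fintype.card_fin] at h2
  calc _ ≤ ‖x‖ ^ k * (C * ‖x‖⁻¹ ^ k) :=
        mul_le_mul_of_nonneg_left (h2.trans (mul_le_mul_of_nonneg_right h4 (by positivity)))
          (by positivity)
    _ = C := by rw [inv_pow]; field_simp

theorem grad_ring (hI : IsOpen I) (hu : IsSol M I u p) {t : ℝ} (ht : t ∈ I) (k : ℕ) :
    ∃ C : ℝ, ∀ x : E, x ≠ 0 → ‖x‖ ^ k * ‖iteratedFDeriv ℝ k (fderiv ℝ (u t)) x‖ ≤ C := by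
  have h1 : ContDiffOn ℝ ∞ (u t) {0}ᶜ :=
    hu.1.1.comp (contDiff_const.prodMk contDiff_id).contDiffOn fun x hx => ⟨ht, hx⟩
  refine ring_bound (h1.fderiv_of_isOpen isOpen_compl_singleton (by simp)) (fun x hx l hl => ?_) k
  rw [fderiv_eq_Da hI hu ht hx, fderiv_eq_Da hI hu ht (smul_ne_zero hl.ne' hx)]
  exact (hom1_of_isSol hu).da_smul hI (z := (t, x)) ⟨ht, hx⟩ hl

theorem lint_ne_top {a b C : ℝ} (h : ∀ t ∈ Ioo a b, ∀ x : E, x ≠ 0 → ‖fderiv ℝ (u t) x‖ ≤ C) :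
    ∫⁻ t in Ioo a b, ⨆ x : {x : E // x ≠ 0}, ‖fderiv ℝ (u t) x‖ₑ ≠ ⊤ := by
  refine ne_top_of_le_ne_top ?_ (setLIntegral_mono' (g := fun _ => ENNReal.ofReal C)
    measurableSet_Ioo fun t ht => iSup_le fun x => ?_)
  · rw [setLIntegral_const]
    exact ENNReal.mul_ne_top ENNReal.ofReal_ne_top (by simp)
  · rw [← ofReal_norm]
    exact ENNReal.ofReal_le_ofReal (h t ht x x.2)

/-- the end piece: shift the time origin into the interval of existence -/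
theorem finish {T t₀ : ℝ} (ht₀ : t₀ ∈ Ioo 0 T) (hu : IsSol M (Ioo 0 T) u p)
    (hL : ∫⁻ t in Ioo t₀ T, ⨆ x : {x : E // x ≠ 0}, ‖fderiv ℝ (u t) x‖ₑ = ⊤) :
    IsSol M (Ico 0 (T - t₀)) (fun t => u (t + t₀)) (fun t => p (t + t₀)) ∧
      (∀ t ∈ Ico 0 (T - t₀), ∀ k : ℕ, ∃ C : ℝ, ∀ x : E, x ≠ 0 →
        ‖x‖ ^ k * ‖iteratedFDeriv ℝ k (fderiv ℝ (u (t + t₀))) x‖ ≤ C) ∧
      ∫⁻ t in Ioo 0 (T - t₀), ⨆ x : {x : E // x ≠ 0}, ‖fderiv ℝ (u (t + t₀)) x‖ₑ = ⊤ ∧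
      (∀ s ∈ Ico 0 (T - t₀), ∀ C : ℝ, ∃ t ∈ Ioo s (T - t₀), ∃ x : E, x ≠ 0 ∧
        C < ‖fderiv ℝ (u (t + t₀)) x‖) ∧
      ¬ ∃ (T' : ℝ) (U : ℝ → E → E) (P : ℝ → E → ℝ), T - t₀ < T' ∧ IsSol M (Ioo 0 T') U P ∧
        ∀ t ∈ Ioo 0 (T - t₀), ∀ x : E, x ≠ 0 → U t x = u (t + t₀) x := by
  have hm : ∀ t ∈ Ico 0 (T - t₀), t + t₀ ∈ Ioo 0 T := fun t ht =>
    ⟨by linarith [ht.1, ht₀.1], by linarith [ht.2]⟩
  have h1 : ∫⁻ t in Ioo 0 (T - t₀), ⨆ x : {x : E // x ≠ 0}, ‖fderiv ℝ (u (t + t₀)) x‖ₑ = ⊤ := by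
    have := (measurePreserving_add_right (volume : Measure ℝ) t₀).setLIntegral_comp_preimage_emb
      (MeasurableEquiv.addRight t₀).measurableEmbedding
      (fun t => ⨆ x : {x : E // x ≠ 0}, ‖fderiv ℝ (u t) x‖ₑ) (Ioo t₀ T)
    rw [preimage_add_const_Ioo, sub_self, hL] at this
    exact this
  have h2 : ∀ s ∈ Ico 0 (T - t₀), ∀ C : ℝ, ∃ t ∈ Ioo s (T - t₀), ∃ x : E, x ≠ 0 ∧
      C < ‖fderiv ℝ (u (t + t₀)) x‖ := by
    intro s hs C
    by_contra hc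
    push Not at hc
    obtain ⟨C', hC'⟩ := grad_bound isOpen_Ioo hu (K := Icc t₀ (s + t₀)) isCompact_Icc
      fun t ht => ⟨ht₀.1.trans_le ht.1, ht.2.trans_lt (hm s hs).2⟩
    refine lint_ne_top (u := fun t => u (t + t₀)) (C := max C C') (fun t ht x hx => ?_) h1
    rcases le_or_gt t s with hts | hts
    · exact (hC' (t + t₀) ⟨by linarith [ht.1], by linarith⟩ x hx).trans (le_max_right _ _)
    · exact (hc t ⟨hts, ht.2⟩ x hx).trans (le_max_left _ _)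
  refine ⟨shift hu t₀ hm, fun t ht k => grad_ring isOpen_Ioo hu (hm t ht) k, h1, h2, ?_⟩
  rintro ⟨T', U, P, hT, hU, he⟩
  have hS : 0 < T - t₀ := sub_pos.2 ht₀.2
  obtain ⟨C, hC⟩ := grad_bound isOpen_Ioo hU (K := Icc ((T - t₀) / 2) (T - t₀)) isCompact_Icc
    fun t ht => ⟨by linarith [ht.1], ht.2.trans_lt hT⟩
  obtain ⟨t, ht, x, hx, hlt⟩ := h2 ((T - t₀) / 2) ⟨by linarith, by linarith⟩ C
  have e : fderiv ℝ (U t) x = fderiv ℝ (u (t + t₀)) x := by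
    apply Filter.EventuallyEq.fderiv_eq
    filter_upwards [isOpen_compl_singleton.mem_nhds hx] with y hy
    exact he t ⟨by linarith [ht.1], ht.2⟩ y hy
  have := hC t ⟨ht.1.le, ht.2.le⟩ x hx
  rw [e] at this
  exact absurd hlt (not_lt.2 this)

end Pool.Agent.Lib.MP_fbbbeb_an.Lag
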